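import Mathlib
import Pool.Agent.R469.Eseq

set_option autoImplicit false

/-!
Every non-periodic E-sequence with `b_n > n log_2 3` for infinitely many `n` is `Ω`-divergent.
-/

namespace Pool.Agent.Results.MP_eea90e_nt.OmegaDivergence

open Finset Filter Topology

/-- The next odd term: `3x+1` divided by the highest power of `2` dividing it. So `x_n = S^[n] x`. -/
def S (x : ℕ) : ℕ := (3 * x + 1) / 2 ^ padicValNat 2 (3 * x + 1)

/-- The E-sequence of `x`: `eSequence x n` is the exponent `a_(n+1)` of `2` in `3 x_n + 1`. -/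
def eSequence (x n : ℕ) : ℕ := padicValNat 2 (3 * S^[n] x + 1)

/-- An E-sequence is a sequence of positive integers; `a n` stands for `a_(n+1)`. -/
def IsESequence (a : ℕ → ℕ) : Prop := ∀ n, 1 ≤ a n

/-- `a` is (eventually) periodic. -/
def Periodic (a : ℕ → ℕ) : Prop := ∃ l r : ℕ, 1 ≤ r ∧ ∀ n, l ≤ n → a (n + r) = a n

/-- `a` is the E-sequence of no odd positive integer. -/
def OmegaDivergent (a : ℕ → ℕ) : Prop := ∀ x : ℕ, Odd x → eSequence x ≠ a

/-- `b_n = a_1 + ... + a_n` -/
def b (a : ℕ → ℕ) (n : ℕ) : ℕ := ∑ i ∈ range n, a i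

open Pool.Agent.R469

/-- the orbit of the odd terms is injective if the E-sequence is not periodic -/
lemma inj_of_nonperiodic {x : ℕ} (h : ¬ Periodic (eSequence x)) : Function.Injective fun n => S^[n] x := by
  have key : ∀ i j : ℕ, i < j → S^[i] x ≠ S^[j] x := by
    intro i j hij he
    refine h ⟨i, j - i, by omega, fun n hn => ?_⟩
    have h1 : S^[n + (j - i)] x = S^[n] x := by
      have h2 : n + (j - i) = (n - i) + j := by omega
      have h3 : n = (n - i) + i := by omega
      rw [h2, Function.iterate_add_apply, ← he, ← Function.iterate_add_apply, ← h3]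
    show padicValNat 2 (3 * S^[n + (j - i)] x + 1) = padicValNat 2 (3 * S^[n] x + 1)
    rw [h1]
  intro i j he
  rcases lt_trichotomy i j with h1 | h1 | h1
  · exact absurd he (key i j h1)
  · exact h1
  · exact absurd he.symm (key j i h1)

/-- **Q1: yes.** Every non-periodic E-sequence with `b_n > n log_2 3` for infinitely many `n` is
`Ω`-divergent. More precisely, let `x` be an odd positive integer with a non-periodic E-sequence. Then
`log_2 x_n - (n log_2 3 - b_n)` converges to a real number (so `x_n` is asymptotically `w 3 ^ n / 2 ^ (b_n)` for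
a `w > 0`) and `n log_2 3 - b_n` tends to infinity. -/
theorem result :
    (∀ a : ℕ → ℕ, IsESequence a → ¬ Periodic a →
      (∃ᶠ n : ℕ in atTop, (n : ℝ) * Real.logb 2 3 < b a n) → OmegaDivergent a) ∧
    (∀ x : ℕ, Odd x → ¬ Periodic (eSequence x) →
      (∃ c : ℝ, Tendsto (fun n : ℕ => Real.logb 2 (S^[n] x : ℕ) -
        (n * Real.logb 2 3 - b (eSequence x) n)) atTop (𝓝 c)) ∧
      Tendsto (fun n : ℕ => (n : ℝ) * Real.logb 2 3 - b (eSequence x) n) atTop atTop) := by
  have l2 : 0 < Real.log 2 := Real.log_pos (by norm_num)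
  obtain ⟨K, hK0, hK⟩ := Rig.log_upper
  have main : ∀ x : ℕ, Odd x → ¬ Periodic (eSequence x) →
      (∃ c : ℝ, Tendsto (fun n : ℕ => Real.logb 2 (S^[n] x : ℕ) -
        (n * Real.logb 2 3 - b (eSequence x) n)) atTop (𝓝 c)) ∧
      Tendsto (fun n : ℕ => (n : ℝ) * Real.logb 2 3 - b (eSequence x) n) atTop atTop := by
    intro x hodd hper
    have hx : x % 2 = 1 := Nat.odd_iff.1 hodd
    have hx1 : 1 ≤ x := by omega
    have hinj : Function.Injective fun n => S^[n] x := inj_of_nonperiodic hper
    have hinjT := Eseq.inj_T hx hinj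
    have hpos : ∀ n, 1 ≤ S^[n] x := by
      intro n
      have : S^[n] x % 2 = 1 := Eseq.S_iter_odd hx n
      omega
    -- the function which converges
    set f : ℕ → ℝ := fun n => Real.logb 2 (S^[n] x : ℕ) - (n * Real.logb 2 3 - b (eSequence x) n) with hf
    have hb : ∀ n, b (eSequence x) (n + 1) = b (eSequence x) n + eSequence x n := by
      intro n; unfold b; rw [sum_range_succ]
    have hmono : Monotone f := by
      refine monotone_nat_of_le_succ fun n => ?_
      have h1 := (Eseq.step_odd (y := S^[n] x) (Eseq.S_iter_odd hx n)).2.2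
      have h1' : 2 ^ eSequence x n * S^[n + 1] x = 3 * S^[n] x + 1 := by
        rw [Function.iterate_succ_apply']
        exact h1
      have p0 : (0 : ℝ) < (S^[n] x : ℕ) := by exact_mod_cast hpos n
      have p1 : (0 : ℝ) < (S^[n + 1] x : ℕ) := by exact_mod_cast hpos (n + 1)
      have h2 : (3 : ℝ) * (S^[n] x : ℕ) ≤ 2 ^ eSequence x n * (S^[n + 1] x : ℕ) := by
        have : 3 * S^[n] x ≤ 2 ^ eSequence x n * S^[n + 1] x := by omega
        exact_mod_cast this
      have h3 := Real.logb_le_logb_of_le (b := 2) (by norm_num) (by positivity) h2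
      rw [Real.logb_mul (by norm_num) p0.ne', Real.logb_mul (by positivity) p1.ne', Real.logb_pow,
        Real.logb_self_eq_one (by norm_num), mul_one] at h3
      simp only [hf]
      rw [hb n]
      push_cast
      linarith
    have hbdd : ∀ n, f n ≤ Real.logb 2 x + K / Real.log 2 := by
      intro n
      have hl := Eseq.link hx n
      have h1 := hK x (Eseq.b x n) hx1 (fun i _ j _ hij => hinjT hij) 1 le_rfl
        (fun j _ => by exact_mod_cast Rig.iter_pos hx1 j)
      rw [hl.1, hl.2, Real.one_rpow, mul_one] at h1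
      have h1' : Real.log (S^[n] x : ℕ) ≤
          Real.log x + n * Real.log 3 - (b (eSequence x) n : ℕ) * Real.log 2 + K := h1
      simp only [hf, Real.logb]
      have e : Real.log (S^[n] x : ℕ) / Real.log 2 - (n * (Real.log 3 / Real.log 2) - (b (eSequence x) n : ℕ)) =
          (Real.log (S^[n] x : ℕ) - n * Real.log 3 + (b (eSequence x) n : ℕ) * Real.log 2) / Real.log 2 := by
        field_simp
        ring
      rw [e, ← add_div]
      exact div_le_div_of_nonneg_right (by linarith) l2.le
    have hconv : ∃ c : ℝ, Tendsto f atTop (𝓝 c) :=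
      ⟨_, tendsto_atTop_ciSup hmono ⟨_, by rintro _ ⟨n, rfl⟩; exact hbdd n⟩⟩
    refine ⟨hconv, ?_⟩
    obtain ⟨c, hc⟩ := hconv
    -- `x_n → ∞`
    have hS : Tendsto (fun n => S^[n] x) atTop atTop := hinj.nat_tendsto_atTop
    have hlog : Tendsto (fun n => Real.logb 2 (S^[n] x : ℕ)) atTop atTop := by
      have h1 := (Real.tendsto_logb_atTop (b := 2) (by norm_num)).comp (tendsto_natCast_atTop_atTop.comp hS)
      exact h1
    have h2 := hlog.atTop_add hc.neg
    refine h2.congr fun n => ?_
    simp only [hf]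
    ring
  refine ⟨?_, main⟩
  intro a _ hper hfreq x hodd he
  subst he
  have h1 := (main x hodd hper).2.eventually_ge_atTop 0
  obtain ⟨n, hn1, hn2⟩ := (hfreq.and_eventually h1).exists
  linarith

end Pool.Agent.Results.MP_eea90e_nt.OmegaDivergence
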